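import Mathlib
import Pool.Agent.H3.Ac.Mat
import Pool.Agent.H67.FG.Run

/-!
# FG, module PRO: specification and degree of the process
-/

set_option autoImplicit false

namespace Pool.Agent.H42.FG

open Finset Pool.Agent.H3.Ac Pool.Agent.H67.FG

section Comb

variable {V : Type}

theorem mem_tch [DecidableEq V] {A : Finset V} {M : Finset (Sym2 V)} {e : Sym2 V} :
    e ∈ tch A M ↔ e ∈ M ∧ ∃ v ∈ A, v ∈ e := by
  simp only [tch, mem_filter]

theorem tch_sub [DecidableEq V] (A : Finset V) (M : Finset (Sym2 V)) : tch A M ⊆ M :=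
  fun _ he => (mem_tch.1 he).1

theorem card_tch_le [DecidableEq V] {A : Finset V} {M : Finset (Sym2 V)} (hM : IsM M) :
    (tch A M).card ≤ A.card := by
  classical
  have h : ∀ e, e ∈ tch A M → ∃ v, v ∈ A ∧ v ∈ e := fun e he => (mem_tch.1 he).2
  rcases (tch A M).eq_empty_or_nonempty with h0 | ⟨e0, he0⟩
  · rw [h0, card_empty]
    exact Nat.zero_le _
  obtain ⟨v0, _⟩ := h e0 he0
  have : Nonempty V := ⟨v0⟩
  choose! g hg using h
  refine card_le_card_of_injOn g (fun e he => (hg e he).1) ?_
  intro e he f hf hef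
  refine hM.2 e (mem_tch.1 he).1 f (mem_tch.1 hf).1 (g e) (hg e he).2 ?_
  rw [hef]
  exact (hg f hf).2

variable [Fintype V] [DecidableEq V]

theorem cov_tch_iff {A : Finset V} {M : Finset (Sym2 V)} : A ⊆ cov (tch A M) ↔ A ⊆ cov M := by
  constructor
  · exact fun h => h.trans (cov_mono (tch_sub A M))
  · intro h v hv
    obtain ⟨e, he, hve⟩ := mem_cov.1 (h hv)
    exact mem_cov.2 ⟨e, mem_tch.2 ⟨he, v, hv, hve⟩, hve⟩

theorem wtn_spec (w : ℕ) (f : Finset (Sym2 V) → Option Bool) (π : Finset (Sym2 V)) :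
    IsM (wtn w f π) ∧ (wtn w f π).card ≤ w := by
  unfold wtn
  split_ifs with h
  · exact ⟨h.choose_spec.1, h.choose_spec.2.1⟩
  · exact ⟨isM_empty, by simp⟩

theorem card_cov_wtn (w : ℕ) (f : Finset (Sym2 V) → Option Bool) (π : Finset (Sym2 V)) :
    (cov (wtn w f π)).card ≤ 2 * w := by
  have h := wtn_spec w f π
  rw [card_cov h.1]
  omega

/-- a decided value comes from a small part of `M` -/
theorem run_spec {w : ℕ} {f : Finset (Sym2 V) → Option Bool} {M : Finset (Sym2 V)} (hM : IsM M) (n : ℕ)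
    (π : Finset (Sym2 V)) (hπ : π ⊆ M) (b : Bool) (h : run w f M n π = some b) :
    ∃ π', π ⊆ π' ∧ π' ⊆ M ∧ π'.card ≤ π.card + n * (2 * w) ∧ dec w f π' = some b := by
  induction n generalizing π with
  | zero => exact ⟨π, Subset.refl _, hπ, by omega, h⟩
  | succ n ih =>
    rw [run] at h
    split_ifs at h with h1 h2
    · exact ⟨π, Subset.refl _, hπ, by omega, h⟩
    · obtain ⟨π', h3, h4, h5, h6⟩ := ih _ (union_subset hπ (tch_sub _ M)) h
      refine ⟨π', subset_union_left.trans h3, h4, ?_, h6⟩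
      have h7 := card_union_le π (tch (cov (wtn w f π)) M)
      have h8 := card_tch_le (A := cov (wtn w f π)) hM
      have h9 := card_cov_wtn w f π
      have h10 : (n + 1) * (2 * w) = n * (2 * w) + 2 * w := by ring
      omega

end Comb

variable {k Y V : Type} [Field k] [Fintype V] [DecidableEq V]

theorem ind_congr {P Q : Y → Prop} {y : Y} (h : P y ↔ Q y) : ind (k := k) P y = ind (k := k) Q y := by
  by_cases hP : P y
  · rw [ind, ind, if_pos hP, if_pos (h.1 hP)]
  · rw [ind, ind, if_neg hP, if_neg fun hQ => hP (h.2 hQ)]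

theorem const_deg (𝓦 : MW k Y V) (P : Prop) (n : ℕ) : ind (fun _ : Y => P) ∈ 𝓦.Deg n := by
  by_cases h : P
  · have h1 : ind (k := k) (fun _ : Y => P) = 1 := by
      funext y
      simp [ind, h]
    rw [h1]
    exact 𝓦.one n
  · have h1 : ind (k := k) (fun _ : Y => P) = 0 := by
      funext y
      simp [ind, h]
    rw [h1]
    exact Submodule.zero_mem _

/-- degree of the process -/
theorem run_deg (𝓦 : MW k Y V) (w : ℕ) (f : Finset (Sym2 V) → Option Bool) (n : ℕ) (π : Finset (Sym2 V))
    (b : Option Bool) : ind (fun y => run w f (𝓦.M y) n π = b) ∈ 𝓦.Deg (n * (2 * w) * 𝓦.c) := by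
  classical
  induction n generalizing π with
  | zero =>
    have h1 : (fun y => run w f (𝓦.M y) 0 π = b) = fun _ => dec w f π = b := by
      funext y
      rw [run]
    rw [h1]
    exact const_deg 𝓦 _ _
  | succ n ih =>
    by_cases h : (dec w f π).isSome = true
    · have h1 : (fun y => run w f (𝓦.M y) (n + 1) π = b) = fun _ => dec w f π = b := by
        funext y
        rw [run, if_pos h]
      rw [h1]
      exact const_deg 𝓦 _ _
    · have key : ind (k := k) (fun y => run w f (𝓦.M y) (n + 1) π = b) =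
          ∑ δ : Finset (Sym2 V), ind (fun y => tch (cov (wtn w f π)) (𝓦.M y) = δ) *
            ind (fun y => (if cov (wtn w f π) ⊆ cov δ then run w f (𝓦.M y) n (π ∪ δ) else none) = b) := by
        funext y
        have hr : (run w f (𝓦.M y) (n + 1) π = b) = ((if cov (wtn w f π) ⊆ cov (tch (cov (wtn w f π)) (𝓦.M y)) then
            run w f (𝓦.M y) n (π ∪ tch (cov (wtn w f π)) (𝓦.M y)) else none) = b) := by
          rw [run, if_neg h]
          simp only [cov_tch_iff]
        rw [Finset.sum_apply, Finset.sum_eq_single (tch (cov (wtn w f π)) (𝓦.M y))]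
        · have h7 : ind (k := k) (fun z => tch (cov (wtn w f π)) (𝓦.M z) = tch (cov (wtn w f π)) (𝓦.M y)) y = 1 := by
            simp only [ind, if_true]
          rw [Pi.mul_apply, h7, one_mul]
          exact ind_congr (iff_of_eq hr)
        · intro δ _ hδ
          simp only [Pi.mul_apply, ind]
          rw [if_neg (Ne.symm hδ), zero_mul]
        · intro h2
          exact absurd (mem_univ _) h2
      rw [key]
      refine Submodule.sum_mem _ fun δ _ => ?_
      have h2 : ind (k := k) (fun y => (if cov (wtn w f π) ⊆ cov δ then run w f (𝓦.M y) n (π ∪ δ) else none) = b) ∈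
          𝓦.Deg (n * (2 * w) * 𝓦.c) := by
        by_cases h3 : cov (wtn w f π) ⊆ cov δ
        · simp only [if_pos h3]
          exact ih _
        · simp only [if_neg h3]
          exact const_deg 𝓦 _ _
      have h4 := 𝓦.mul (𝓦.loc (cov (wtn w f π)) δ) h2
      refine 𝓦.mono ?_ h4
      have h5 := card_cov_wtn w f π
      calc (cov (wtn w f π)).card * 𝓦.c + n * (2 * w) * 𝓦.c
          ≤ 2 * w * 𝓦.c + n * (2 * w) * 𝓦.c := Nat.add_le_add_right (Nat.mul_le_mul_right _ h5) _
        _ = (n + 1) * (2 * w) * 𝓦.c := by ring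

end Pool.Agent.H42.FG
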