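import Mathlib
import Pool.Agent.H67.FG.Defs

/-!
# Every edge occurs in two rows
-/

set_option autoImplicit false

namespace Pool.Agent.H42.FG

open Pool.Agent.H67.FG

theorem countP_finRange {N : ℕ} (p : Fin N → Bool) :
    (List.finRange N).countP p = ∑ b : Fin N, if p b = true then 1 else 0 := by
  rw [← Finset.card_filter, List.countP_eq_length_filter]
  have h1 : ((List.finRange N).filter p).toFinset = Finset.univ.filter fun b => p b = true := by
    ext b
    simp
  rw [← h1, List.toFinset_card_of_nodup ((List.nodup_finRange N).filter _)]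

/-- the pairs `(a, b)` with `b ≠ a` and `w s(a, b)` come in twos -/
theorem even_rows {N : ℕ} (w : Fo (Sym2 (Fin N)) → Bool) :
    Even (((List.finRange N).flatMap fun a => ((List.finRange N).filter (fun b => decide (b ≠ a))).map
      fun b => (Fo.var s(a, b) : Fo (Sym2 (Fin N)))).countP w) := by
  rw [List.countP_flatMap, ← Fin.sum_univ_def]
  have h1 : ∀ a : Fin N, (List.countP w ∘ fun a : Fin N => ((List.finRange N).filter (fun b => decide (b ≠ a))).map
      fun b => (Fo.var s(a, b) : Fo (Sym2 (Fin N)))) a =
      ∑ b : Fin N, if (w (Fo.var s(a, b)) && decide (b ≠ a)) = true then 1 else 0 := fun a => by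
    rw [Function.comp_apply, List.countP_map, List.countP_filter, countP_finRange]
    rfl
  rw [Finset.sum_congr rfl fun a _ => h1 a, ← Finset.sum_product', ← ZMod.natCast_eq_zero_iff_even, Nat.cast_sum]
  refine Finset.sum_involution (fun x _ => (x.2, x.1)) ?_ ?_ ?_ ?_
  · rintro ⟨a, b⟩ _
    have h2 : (w (Fo.var s(b, a)) && decide (a ≠ b)) = (w (Fo.var s(a, b)) && decide (b ≠ a)) := by
      rw [Sym2.eq_swap]
      simp only [ne_comm]
    simp only [h2]
    split_ifs
    · decide
    · decide
  · rintro ⟨a, b⟩ _ h h2
    apply h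
    simp only [Prod.mk.injEq] at h2
    simp [h2.1]
  · intro x _
    exact Finset.mem_univ _
  · intro x _
    rfl

end Pool.Agent.H42.FG
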